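import Pool.Agent.N206.CG.Stm2

/-!
# Project CG: automorphisms of the wreath product which are trivial on the quotient and on the
factors (helper353)
-/

namespace Pool.Agent.N353.CG

open Classical
open Pool.Agent.N206.CG

theorem A5_cent (c : A5) (h : ∀ a : A5, a * c = c * a) : c = 1 := by
  have h1 : c ∈ Subgroup.center A5 := Subgroup.mem_center_iff.2 fun a => h a
  rw [alternatingGroup.center_eq_bot (by simp)] at h1
  exact Subgroup.mem_bot.1 h1

section

variable {G : Type} [Group G] {U : Subgroup G}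

/-- the value of a finitely supported function -/
theorem wact_val (g : G) (f : FS (G ⧸ U) A5) (z : G ⧸ U) :
    (wact G (G ⧸ U) A5 g f).1 z = f.1 (g⁻¹ • z) := rfl

theorem sgl_val (z y : G ⧸ U) (a : A5) : (sgl z a : FS (G ⧸ U) A5).1 y = if y = z then a else 1 := by
  unfold sgl
  by_cases h : y = z
  · rw [if_pos h]
    exact if_pos h
  · rw [if_neg h]
    exact if_neg h

theorem wact_sgl (g : G) (z : G ⧸ U) (a : A5) :
    wact G (G ⧸ U) A5 g (sgl z a) = sgl (g • z) a := by
  apply Subtype.ext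
  funext y
  rw [wact_val, sgl_val, sgl_val]
  by_cases h : y = g • z
  · rw [if_pos h, if_pos (by rw [h, inv_smul_smul])]
  · rw [if_neg h, if_neg (fun h' => h (by rw [← h', smul_inv_smul]))]

/-- conjugation of an element of a factor -/
theorem conj_sgl (k : FS (G ⧸ U) A5) (z : G ⧸ U) (a : A5) :
    k * sgl z a * k⁻¹ = sgl z (k.1 z * a * (k.1 z)⁻¹) := by
  apply Subtype.ext
  funext y
  have e1 : (k * sgl z a * k⁻¹).1 y = k.1 y * (sgl z a : FS (G ⧸ U) A5).1 y * (k.1 y)⁻¹ := rfl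
  rw [e1, sgl_val, sgl_val]
  by_cases h : y = z
  · rw [if_pos h, if_pos h, h]
  · rw [if_neg h, if_neg h, mul_one, mul_inv_cancel]

theorem sgl_inj {z : G ⧸ U} {a b : A5} (h : (sgl z a : FS (G ⧸ U) A5) = sgl z b) : a = b := by
  have h1 := congrFun (congrArg Subtype.val h) z
  rw [sgl_val, sgl_val, if_pos rfl, if_pos rfl] at h1
  exact h1

end

theorem t_W6 (G : Type) [Group G] (U : Subgroup G) (h : S_WEXT G U) : S_W6 G U := by
  intro hAI θ f hf hr
  -- the cocycle
  obtain ⟨κ, hκ⟩ : ∃ κ : G → FS (G ⧸ U) A5, ∀ g, θ (SemidirectProduct.inr g) =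
      SemidirectProduct.inl (κ g) * SemidirectProduct.inr g := by
    refine ⟨fun g => (θ (SemidirectProduct.inr g)).left, fun g => ?_⟩
    have h1 := hr (SemidirectProduct.inr g)
    rw [SemidirectProduct.right_inr] at h1
    have h2 := SemidirectProduct.inl_left_mul_inr_right (θ (SemidirectProduct.inr g))
    rw [h1] at h2
    exact h2.symm
  have key : ∀ (g : G) (z : G ⧸ U) (a : A5),
      f (g • z) a = (κ g).1 (g • z) * f z a * ((κ g).1 (g • z))⁻¹ := by
    intro g z a
    have h1 : θ (SemidirectProduct.inl (sgl (g • z) a)) =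
        SemidirectProduct.inl (κ g * sgl (g • z) (f z a) * (κ g)⁻¹) := by
      rw [← wact_sgl, SemidirectProduct.inl_aut, map_mul, map_mul, hf, map_inv, map_inv, hκ,
        map_mul, map_mul, map_inv, ← wact_sgl, SemidirectProduct.inl_aut, mul_inv_rev, map_inv]
      simp only [mul_assoc]
    rw [hf, conj_sgl] at h1
    exact sgl_inj (SemidirectProduct.inl_injective h1)
  have hfin : ∀ g : G, {z | f (g • z) ≠ f z}.Finite := by
    intro g
    have h1 : ((fun z : G ⧸ U => g • z) ⁻¹' (Function.mulSupport (κ g).1)).Finite :=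
      Set.Finite.preimage (MulAction.injective g).injOn (κ g).2
    refine h1.subset ?_
    intro z hz
    by_contra h2
    have h3 : (κ g).1 (g • z) = 1 := by
      by_contra h4
      exact h2 h4
    apply hz
    apply MulEquiv.ext
    intro a
    rw [key g z a, h3, one_mul, inv_one, mul_one]
  obtain ⟨c0, hc0⟩ := hAI f hfin
  obtain ⟨z0, hz0⟩ : ∃ z0, {z | f z ≠ f z0}.Finite := by
    by_cases hex : ∃ z0, f z0 = c0
    · obtain ⟨z0, rfl⟩ := hex
      exact ⟨z0, hc0⟩
    · refine ⟨((1 : G) : G ⧸ U), hc0.subset fun z _ => ?_⟩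
      intro h1
      exact hex ⟨z, h1⟩
  have hk : ∀ z : G ⧸ U, ∃ c : A5, (∀ a, f z a = c * f z0 a * c⁻¹) ∧ (f z = f z0 → c = 1) := by
    intro z
    by_cases h1 : f z = f z0
    · refine ⟨1, fun a => ?_, fun _ => rfl⟩
      rw [h1, one_mul, inv_one, mul_one]
    · obtain ⟨g, hg⟩ := MulAction.exists_smul_eq G z0 z
      refine ⟨(κ g).1 (g • z0), fun a => ?_, fun h2 => absurd h2 h1⟩
      rw [← key g z0 a, hg]
  choose k hk1 hk2 using hk
  have hkf : (Function.mulSupport k).Finite := by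
    refine hz0.subset ?_
    intro z hz h1
    exact hz (hk2 z h1)
  refine ⟨f z0, ⟨k, hkf⟩, fun Ψ hΨ1 hΨ2 => h _ _ ?_ ?_⟩
  · intro z a
    rw [hf, MulAut.mul_apply, hΨ2, MulAut.conj_apply, ← map_inv, ← map_mul, ← map_mul, conj_sgl,
      hk1 z a]
  · intro g
    rw [hκ, MulAut.mul_apply, hΨ1, MulAut.conj_apply]
    have e1 : κ g = (⟨k, hkf⟩ : FS (G ⧸ U) A5) *
        wact G (G ⧸ U) A5 g (⟨k, hkf⟩ : FS (G ⧸ U) A5)⁻¹ := by
      apply Subtype.ext
      funext y
      have e2 : ((⟨k, hkf⟩ : FS (G ⧸ U) A5) *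
          wact G (G ⧸ U) A5 g (⟨k, hkf⟩ : FS (G ⧸ U) A5)⁻¹).1 y = k y * (k (g⁻¹ • y))⁻¹ := rfl
      rw [e2]
      have h1 : ∀ a, k y * f z0 a * (k y)⁻¹ =
          (κ g).1 y * (k (g⁻¹ • y) * f z0 a * (k (g⁻¹ • y))⁻¹) * ((κ g).1 y)⁻¹ := by
        intro a
        have h2 := key g (g⁻¹ • y) a
        rw [smul_inv_smul, hk1 y a, hk1 (g⁻¹ • y) a] at h2
        exact h2
      have h3 : (k y)⁻¹ * (κ g).1 y * k (g⁻¹ • y) = 1 := by
        apply A5_cent
        intro b
        obtain ⟨a, rfl⟩ := (f z0).surjective b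
        have h2 := h1 a
        generalize (f z0) a = b at *
        generalize (κ g).1 y = c at *
        generalize k y = u at *
        generalize k (g⁻¹ • y) = w at *
        have h4 : b = u⁻¹ * (u * b * u⁻¹) * u := by group
        calc b * (u⁻¹ * c * w) = u⁻¹ * (u * b * u⁻¹) * u * (u⁻¹ * c * w) := by rw [← h4]
          _ = u⁻¹ * (c * (w * b * w⁻¹) * c⁻¹) * u * (u⁻¹ * c * w) := by rw [h2]
          _ = u⁻¹ * c * w * b := by group
      have h5 : (κ g).1 y = k y * ((k y)⁻¹ * (κ g).1 y * k (g⁻¹ • y)) * (k (g⁻¹ • y))⁻¹ := by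
        group
      rw [h5, h3, mul_one]
    rw [e1, map_mul, SemidirectProduct.inl_aut, map_inv, map_inv]
    group

end Pool.Agent.N353.CG
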